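import Mathlib

set_option autoImplicit false
open Cardinal Set Filter Topology MeasureTheory

namespace Pool.Agent.Results.MP_f38093_lc.Sacks

def Dense1 (A : Set (ℕ → Bool)) : Prop :=
  ∀ U : Set (ℕ → Bool), IsOpen U → U.Nonempty → #(A ∩ U : Set (ℕ → Bool)) = ℵ₁

def Avoids (X Y : Set (ℕ → Bool)) : Prop :=
  ∀ Z ⊆ X, #Z = ℵ₁ → ∀ f : Z → Y, Continuous f → #(range f) < ℵ₁

def SmallCof (P : Set (ℕ → Bool) → Prop) : Prop :=
  ∃ F : Set (Set (ℕ → Bool)), #F ≤ ℵ₁ ∧ (∀ A ∈ F, P A) ∧ ∀ A, P A → ∃ B ∈ F, A ⊆ B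

lemma luz (l : Filter (ℕ → Bool)) [CountableInterFilter l] (hd : ∀ S ∈ l, Dense S)
    (hs : ∀ x, {x}ᶜ ∈ l) (h : SmallCof fun A => Aᶜ ∈ l) :
    ∃ X, Dense1 X ∧ ∀ A, Aᶜ ∈ l → (X ∩ A).Countable := by
  obtain ⟨F, f1, f2, f3⟩ := h
  have hT : #(ℵ₁ : Cardinal.{0}).ord.ToType = ℵ₁ := mk_ord_toType _
  obtain ⟨e⟩ := (Cardinal.le_def F (ℵ₁ : Cardinal.{0}).ord.ToType).1 (f1.trans hT.ge)
  have hc : ∀ a : (ℵ₁ : Cardinal.{0}).ord.ToType, (Iic a).Countable := fun a =>
    (countable_iff_lt_aleph_one _).2 ((mk_Iic_lt a (by simp)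
      (aleph0_lt_aleph_one.le.trans hT.ge)).trans_eq hT)
  choose D d1 d2 d3 using fun a => (hd _ ((countable_bInter_mem (l := l)
    (s := fun (B : F) _ => B.1ᶜ) ((hc a).preimage e.injective)).2
      fun B _ => f2 _ B.2)).exists_countable_dense_subset
  have hD : ∀ (B : F) a, e B ≤ a → ∀ x ∈ D a, x ∉ B.1 := fun B a h x hx =>
    mem_iInter₂.1 (d1 a hx) B h
  have key : ∀ A, Aᶜ ∈ l → ((⋃ a, D a) ∩ A).Countable := fun A hA => by
    obtain ⟨B, b1, b2⟩ := f3 A hA
    refine ((hc (e ⟨B, b1⟩)).biUnion fun a _ => d2 a).mono ?_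
    rintro x ⟨hx, h⟩
    obtain ⟨a, ha⟩ := mem_iUnion.1 hx
    exact mem_iUnion₂.2 ⟨a, le_of_not_ge fun c => hD ⟨B, b1⟩ a c x ha (b2 h), ha⟩
  refine ⟨⋃ a, D a, fun U u1 u2 => le_antisymm ?_ (not_lt.1 fun h => ?_), key⟩
  · refine (mk_le_mk_of_subset inter_subset_left).trans ((mk_iUnion_le _).trans ?_)
    rw [hT]
    exact (mul_le_mul' le_rfl (ciSup_le' fun a => (d2 a).le_aleph0.trans
      aleph0_lt_aleph_one.le)).trans (mul_eq_self aleph0_lt_aleph_one.le).le
  · have h1 := (countable_iff_lt_aleph_one _).2 h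
    obtain ⟨B, b1, b2⟩ := f3 ((⋃ a, D a) ∩ U) (by
      beta_reduce
      rw [← biUnion_of_singleton (_ ∩ U), compl_iUnion₂]
      exact (countable_bInter_mem h1).2 fun x _ => hs x)
    obtain ⟨x, x1, x2⟩ := (d3 (e ⟨B, b1⟩)).inter_open_nonempty U u1 u2
    exact hD ⟨B, b1⟩ _ le_rfl x x2 (b2 ⟨mem_iUnion.2 ⟨_, x2⟩, x1⟩)

lemma sing (x : ℕ → Bool) : {x}ᶜ ∈ residual (ℕ → Bool) := by
  refine residual_of_dense_open isOpen_compl_singleton (dense_compl_singleton_iff_not_open.2 ?_)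
  intro h
  have h1 : Tendsto (fun n => Function.update x n (!x n)) atTop (𝓝 x) :=
    tendsto_pi_nhds.2 fun i => tendsto_const_nhds.congr' (by
      filter_upwards [eventually_gt_atTop i] with n hn
      rw [Function.update_of_ne hn.ne])
  obtain ⟨n, hn⟩ := (h1.eventually (h.mem_nhds rfl)).exists
  simpa using congrFun hn n

lemma ext {Z Y : Set (ℕ → Bool)} {f : Z → Y} (hf : Continuous f) :
    ∃ g : (ℕ → Bool) → ℕ → Bool, Measurable g ∧ ∀ z : Z, g z = f z := by
  classical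
  choose O o1 o2 using fun n : ℕ => isOpen_induced_iff.1 ((isOpen_discrete {true}).preimage
    ((continuous_apply n).comp (continuous_subtype_val.comp hf)))
  refine ⟨fun x n => if x ∈ O n then true else false, measurable_pi_lambda _ fun n =>
    Measurable.ite (o1 n).measurableSet measurable_const measurable_const, fun z => funext fun n => ?_⟩
  have : z.1 ∈ O n ↔ (f z).1 n = true := Set.ext_iff.1 (o2 n) z
  simp [this]

theorem result (μ : Measure (ℕ → Bool)) [IsFiniteMeasure μ] [NullSingletonClass μ] [μ.IsOpenPosMeasure]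
    (hM : SmallCof IsMeagre) (hN : SmallCof fun A => μ A = 0) :
    ∃ X Y : Set (ℕ → Bool), Dense1 X ∧ Dense1 Y ∧ Avoids X Y ∧ Avoids Y X := by
  obtain ⟨X, x1, x2⟩ := luz (residual _) (fun _ => dense_of_mem_residual) sing hM
  obtain ⟨Y, y1, y2⟩ := luz (ae μ) (fun _ h => μ.dense_of_ae h)
    (fun x => compl_mem_ae_iff.2 (measure_singleton x)) (by simpa only [compl_mem_ae_iff] using hN)
  simp only [compl_mem_ae_iff] at y2
  refine ⟨X, Y, x1, y1, fun Z hZ _ f hf => ?_, fun Z hZ _ f hf => ?_⟩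
  · rw [← countable_iff_lt_aleph_one]
    refine countable_of_injective_of_countable_image Subtype.val_injective.injOn
      ((y2 (Subtype.val '' range f) ?_).mono (subset_inter (by rintro _ ⟨y, -, rfl⟩; exact y.2)
        subset_rfl))
    obtain ⟨D, d1, d2⟩ := TopologicalSpace.exists_countable_dense Z
    refine le_antisymm (le_of_forall_gt_imp_ge_of_dense fun r hr => ?_) zero_le
    obtain ⟨V, v1, v2, v3⟩ := Set.exists_isOpen_lt_of_lt (μ := μ) ((fun z => (f z).1) '' D) r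
      (by rwa [(d1.image _).measure_zero])
    obtain ⟨O, o1, o2⟩ := isOpen_induced_iff.1 (v2.preimage (continuous_subtype_val.comp hf))
    have hO : ∀ z : Z, z.1 ∈ O ↔ (f z).1 ∈ V := Set.ext_iff.1 o2
    have h1 : IsNowhereDense (Z \ O) := by
      refine eq_empty_of_forall_notMem fun w hw => ?_
      obtain ⟨z, z1, z2⟩ := mem_closure_iff.1 (interior_subset hw) _ isOpen_interior hw
      obtain ⟨d, a, b⟩ := d2.inter_open_nonempty _
        (isOpen_interior.preimage continuous_subtype_val) ⟨⟨z, z2.1⟩, z1⟩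
      obtain ⟨y, c1, c2⟩ := mem_closure_iff.1 (interior_subset a) _ o1
        ((hO d).2 (v1 ⟨d, b, rfl⟩))
      exact c2.2 c1
    have h2 := ((x2 _ h1.isMeagre).preimage (Subtype.val_injective (p := (· ∈ Z)))).image
      fun z => (f z).1
    refine (measure_mono ?_).trans ((measure_union_le V _).trans (by rw [h2.measure_zero]; simpa using v3.le))
    rintro _ ⟨_, ⟨z, rfl⟩, rfl⟩
    by_cases h : z.1 ∈ O
    · exact Or.inl ((hO z).1 h)
    · exact Or.inr ⟨z, ⟨hZ z.2, z.2, h⟩, rfl⟩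
  · rw [← countable_iff_lt_aleph_one]
    obtain ⟨g, g1, g2⟩ := ext hf
    have h1 := Measure.countable_meas_level_set_pos (μ := μ) g1
    obtain ⟨D, d1, d2, d3⟩ := (dense_of_mem_residual ((countable_bInter_mem h1).2
      fun x _ => sing x)).exists_countable_dense_subset
    have h2 : μ.map g D = 0 := by
      rw [Measure.map_apply g1 d2.measurableSet, ← biUnion_of_singleton D, preimage_iUnion₂]
      refine (measure_biUnion_null_iff d2).2 fun x hx => ?_
      by_contra h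
      exact mem_iInter₂.1 (d1 hx) x (pos_iff_ne_zero.2 h) rfl
    choose V v1 v2 v3 using fun n : ℕ => Set.exists_isOpen_lt_of_lt (μ := μ.map g) D
      ((n : ENNReal)⁻¹) (by rw [h2]; simp)
    have h3 : μ (g ⁻¹' ⋂ n, V n) = 0 := by
      rw [← Measure.map_apply g1 (MeasurableSet.iInter fun n => (v2 n).measurableSet)]
      exact le_antisymm (ge_of_tendsto' ENNReal.tendsto_inv_nat_nhds_zero fun n =>
        (measure_mono (iInter_subset V n)).trans (v3 n).le) zero_le
    have h4 := x2 (⋂ n, V n)ᶜ (by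
      rw [compl_compl]
      exact countable_iInter_mem.2 fun n => residual_of_dense_open (v2 n) (d3.mono (v1 n)))
    refine countable_of_injective_of_countable_image Subtype.val_injective.injOn
      ((h4.union ((y2 _ h3).image g)).mono ?_)
    rintro _ ⟨_, ⟨z, rfl⟩, rfl⟩
    by_cases h : (f z).1 ∈ ⋂ n, V n
    · exact Or.inr ⟨z, ⟨hZ z.2, by rwa [mem_preimage, g2]⟩, g2 z⟩
    · exact Or.inl ⟨(f z).2, h⟩

end Pool.Agent.Results.MP_f38093_lc.Sacks
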